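import Pool.Agent.Helper74.TY.XFlag

/-!
MP_8ee768_co, project TH-Y': stage X, completeness of the lists of chunks (`XSel`) from the class
theorem (`RootOK`), the flags (`FlagOK`) and the isomorphism search (`IsoW`).
-/

set_option autoImplicit false
set_option maxRecDepth 100000

namespace Pool.Agent.Helper22.TY

open Finset
open Pool.Agent.Helper89.CV (OddCover ofMask)
open Pool.Agent.Helper97.CV
open Pool.Agent.Helper79.CV
open Pool.Agent.Helper33.CV
open Pool.Agent.Helper63.SIMD
open Pool.Agent.Helper91.TY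
open Pool.Agent.Helper16.TY
open Pool.Agent.Helper67.TY (repA repB repA_lt repB_lt)
open Pool.Agent.Helper82.TY (below)
open Pool.Agent.Helper74.TY

/-! ## the lists of chunks -/

theorem selEq_sound {P1 : ℕ} {gl : List (ℕ × ℕ × ℕ)} {S : List (ℕ × ℕ)}
    (h : selEq P1 gl S = true) :
    (∀ g ∈ gl, Nat.land g.1 P1 = P1 → (g.2.1, g.2.2) ∈ S) ∧
      ∀ q ∈ S, ∃ g ∈ gl, q = (g.2.1, g.2.2) := by
  induction gl generalizing S with
  | nil =>
    cases S with
    | nil =>
      exact ⟨fun g hg => absurd hg List.not_mem_nil, fun q hq => absurd hq List.not_mem_nil⟩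
    | cons q S => exact Bool.noConfusion h
  | cons g gl ih =>
    have h' : cond (Nat.beq (Nat.land g.1 P1) P1)
      (List.rec (motive := fun _ => Bool) false
        (fun q S' _ => Nat.beq q.1 g.2.1 && (Nat.beq q.2 g.2.2 && selEq P1 gl S')) S)
      (selEq P1 gl S) = true := h
    cases hb : Nat.beq (Nat.land g.1 P1) P1
    · rw [hb, cond_false] at h'
      obtain ⟨h1, h2⟩ := ih h'
      refine ⟨fun g' hg' hl => ?_, fun q hq => ?_⟩
      · rcases List.mem_cons.1 hg' with rfl | hg'
        · rw [hl, Nat.beq_refl] at hb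
          exact Bool.noConfusion hb
        · exact h1 g' hg' hl
      · obtain ⟨g', hg', e⟩ := h2 q hq
        exact ⟨g', List.mem_cons_of_mem _ hg', e⟩
    · rw [hb, cond_true] at h'
      cases S with
      | nil => exact Bool.noConfusion h'
      | cons q S =>
        have h2 : (Nat.beq q.1 g.2.1 && (Nat.beq q.2 g.2.2 && selEq P1 gl S)) = true := h'
        rw [Bool.and_eq_true, Bool.and_eq_true] at h2
        obtain ⟨e1, e2, h3⟩ := h2
        have e1' := Nat.eq_of_beq_eq_true e1
        have e2' := Nat.eq_of_beq_eq_true e2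
        have hq : q = (g.2.1, g.2.2) := Prod.ext e1' e2'
        obtain ⟨h4, h5⟩ := ih h3
        refine ⟨fun g' hg' hl => ?_, fun q' hq' => ?_⟩
        · rcases List.mem_cons.1 hg' with rfl | hg'
          · rw [hq]
            exact List.mem_cons_self
          · exact List.mem_cons_of_mem _ (h4 g' hg' hl)
        · rcases List.mem_cons.1 hq' with rfl | hq'
          · exact ⟨g, List.mem_cons_self, hq⟩
          · obtain ⟨g', hg', e⟩ := h5 q' hq'
            exact ⟨g', List.mem_cons_of_mem _ hg', e⟩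

theorem plChk_sound {gl : List (ℕ × ℕ × ℕ)} {P : ℕ} {ws : List (ℕ × ℕ)}
    {pl : List ((ℕ × ℕ) × ℕ × List (ℕ × ℕ))} (h : plChk gl P ws pl = true) :
    (∀ w ∈ ws, ∃ e ∈ pl, e.1 = w ∧ ptK w.1 w.2 P = e.2.1 ∧ selEq e.2.1 gl e.2.2 = true) ∧
      ∀ e ∈ pl, selEq e.2.1 gl e.2.2 = true := by
  induction ws generalizing pl with
  | nil =>
    cases pl with
    | nil =>
      exact ⟨fun g hg => absurd hg List.not_mem_nil, fun q hq => absurd hq List.not_mem_nil⟩
    | cons q S => exact Bool.noConfusion h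
  | cons w ws ih =>
    cases pl with
    | nil => exact Bool.noConfusion h
    | cons e pl =>
      have h2 : (Nat.beq w.1 e.1.1 && (Nat.beq w.2 e.1.2 &&
        (Nat.beq (ptK w.1 w.2 P) e.2.1 && (selEq e.2.1 gl e.2.2 && plChk gl P ws pl)))) = true := h
      rw [Bool.and_eq_true, Bool.and_eq_true, Bool.and_eq_true, Bool.and_eq_true] at h2
      obtain ⟨e1, e2, e3, e4, h3⟩ := h2
      have e1' := Nat.eq_of_beq_eq_true e1
      have e2' := Nat.eq_of_beq_eq_true e2
      have e3' := Nat.eq_of_beq_eq_true e3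
      have hw : e.1 = w := Prod.ext e1'.symm e2'.symm
      obtain ⟨h4, h5⟩ := ih h3
      refine ⟨fun w' hw' => ?_, fun q' hq' => ?_⟩
      · rcases List.mem_cons.1 hw' with rfl | hw'
        · exact ⟨e, List.mem_cons_self, hw, e3', e4⟩
        · obtain ⟨e', he', e5⟩ := h4 w' hw'
          exact ⟨e', List.mem_cons_of_mem _ he', e5⟩
      · rcases List.mem_cons.1 hq' with rfl | hq'
        · exact e4
        · exact h5 q' hq'

theorem trX_gok {tA tB : GT} (hA : tA.All GOK) (hB : tB.All GOK) (t : ℕ) :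
    ∀ g ∈ (trX tA tB t).toL [], GOK g := by
  refine GT.of_all ?_
  unfold trX
  cases Nat.beq t 0
  · exact hB
  · exact hA

/-- an isomorphism between two types is a word of an automorphism of the type -/
theorem iso_types {t t' : ℕ} (ht : t < 2) (ht' : t' < 2) {ρ : Equiv.Perm (Fin 13)}
    (h11 : ρ 11 = 11) (h12 : ρ 12 = 12) (h : mapF ρ (fam 11 3 (tyX t)) = fam 11 3 (tyX t')) :
    t' = t ∧ ∃ w ∈ wsX t, (∀ a ∈ digs w.2 w.1, a < 10) ∧ ρ = wp (digs w.2 w.1) := by
  have e0 : tyX 0 = repA := rfl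
  have e1 : tyX 1 = repB := rfl
  have w0 : wsX 0 = wsA := rfl
  have w1 : wsX 1 = wsB := rfl
  have c : t = 0 ∨ t = 1 := by omega
  have c' : t' = 0 ∨ t' = 1 := by omega
  rcases c with rfl | rfl <;> rcases c' with rfl | rfl
  · rw [e0] at h
    exact ⟨rfl, isoAA ρ h11 h12 h⟩
  · rw [e0, e1] at h
    obtain ⟨w, hw, -⟩ := isoAB ρ h11 h12 h
    exact absurd hw List.not_mem_nil
  · rw [e0, e1] at h
    obtain ⟨w, hw, -⟩ := isoBA ρ h11 h12 h
    exact absurd hw List.not_mem_nil
  · rw [e1] at h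
    exact ⟨rfl, isoBB ρ h11 h12 h⟩

/-- **the lists of chunks are complete** -/
theorem xSel_of {tA tB : GT} (hR : RootOK 6 (fun _ => True) Pool.Agent.Helper16.TY.reps)
    (hF : ∀ j < Tab.nc, FlagOK tA tB (fam 12 4 (Tab.rp j))) (hA : tA.All GOK) (hB : tB.All GOK)
    {t P : ℕ} (ht : t < 2) (hP : P < 2048) {pl : List ((ℕ × ℕ) × ℕ × List (ℕ × ℕ))}
    (h : plChk ((trX tA tB t).toL []) P (wsX t) pl = true) : XSel 576 okC (tyX t) P pl := by
  obtain ⟨hp1, hp2⟩ := plChk_sound h
  have hG := trX_gok hA hB t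
  refine ⟨fun e he q hq => ?_, fun D hodd hl hc hRX hz => ?_⟩
  · obtain ⟨g, hg, rfl⟩ := (selEq_sound (hp2 e he)).2 q hq
    exact (hG g hg).2.1
  · obtain ⟨σ, hσ, r, hr, hσr⟩ := hR D hodd (by rw [hc]) trivial
    obtain ⟨j, hj, rfl⟩ := List.mem_map.1 hr
    rw [List.mem_range] at hj
    have hp12 : σ 11 ≠ 12 := fun e => by
      have h1 : (11 : Fin 13) = 12 := σ.injective (e.trans hσ.symm)
      exact absurd h1 (by decide)
    have hc19 : (link D 11).card = 19 := by rw [hl, card_tyX]
    obtain ⟨ψ, hψ12, hψ, t', ht', g, hg, i, hi, h1, h2, h3⟩ :=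
      hF j hj (by rw [← hσr, card_mapF, hc]) (σ 11) hp12
        (by rw [← hσr, card_link_mapF, hc19]) (by rw [← hσr]; exact hRX.map hσ)
    rw [← hσr, ← mapF_mul] at h1 h2 h3
    set ρ : Equiv.Perm (Fin 13) := ψ * σ with hρ
    have hρ11 : ρ 11 = 11 := by rw [hρ, Equiv.Perm.mul_apply, hψ]
    have hρ12 : ρ 12 = 12 := by rw [hρ, Equiv.Perm.mul_apply, hσ, hψ12]
    have h4 : mapF ρ (fam 11 3 (tyX t)) = fam 11 3 (tyX t') := by
      rw [← hl, ← h1]
      conv_rhs => rw [← hρ11]
      exact (link_mapF ρ D 11).symm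
    obtain ⟨rfl, w, hw, hdig, hwρ⟩ := iso_types ht ht' hρ11 hρ12 h4
    obtain ⟨e, he, rfl, he2, he3⟩ := hp1 w hw
    rw [hwρ] at h2 h3 h4
    refine ⟨e, he, h4, (g.2.1, g.2.2), (selEq_sound he3).1 g hg ?_, i, hi, h2, (hG g hg).2.2 i hi⟩
    have hPm : mk (ofMask P) = P := mk_ofMask (by omega)
    have hmask : e.2.1 = mk (mapS ρ (ofMask P)) := by
      rw [← he2, hwρ]
      conv_lhs => rw [← hPm]
      exact ptK_eq (fun a ha => by have := hdig a ha; omega) (ofMask P)
    refine Nat.eq_of_testBit_eq fun k => ?_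
    have hland : (Nat.land g.1 e.2.1).testBit k = (g.1.testBit k && e.2.1.testBit k) :=
      Nat.testBit_and _ _ _
    rw [hland]
    cases hk : e.2.1.testBit k
    · rw [Bool.and_false]
    · rw [Bool.and_true]
      have hk13 : k < 13 := by
        by_contra hge
        rw [hmask, testBit_mk_ge _ (by omega)] at hk
        exact Bool.noConfusion hk
      set q : Fin 13 := ⟨k, hk13⟩ with hq
      have hkq : (mk (mapS ρ (ofMask P))).testBit q.val = true := by
        rw [← hmask]
        exact hk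
      rw [testBit_mk, decide_eq_true_eq, mem_mapS', mem_ofMask] at hkq
      have hlt : (ρ.symm q).val < 11 := by
        by_contra hge
        have h5 : P.testBit (ρ.symm q).val = false :=
          Nat.testBit_lt_two_pow (lt_of_lt_of_le hP (by
            have h6 : (2 : ℕ) ^ 11 ≤ 2 ^ (ρ.symm q).val :=
              Nat.pow_le_pow_right (by norm_num) (by omega)
            calc 2048 = 2 ^ 11 := by norm_num
              _ ≤ _ := h6))
        rw [h5] at hkq
        exact Bool.noConfusion hkq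
      have hcq := hz (ρ.symm q) hkq
      have h6 := card_link_mapF ρ D (ρ.symm q)
      rw [Equiv.apply_symm_apply, hcq] at h6
      have h7 : q ≠ 12 := fun h7 => by
        have h8 : ρ.symm q = 12 := by rw [Equiv.symm_apply_eq, hρ12, h7]
        rw [h8] at hlt
        exact absurd hlt (by decide)
      have h9 : q ≠ 11 := fun h7 => by
        have h8 : ρ.symm q = 11 := by rw [Equiv.symm_apply_eq, hρ11, h7]
        rw [h8] at hlt
        exact absurd hlt (by decide)
      rw [← hwρ] at h3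
      exact h3 q h7 h9 h6

end Pool.Agent.Helper22.TY
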